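import Pool.Agent.H32.RQ.Targets

/-!
# (PFX) the number of the pairs which are bad at a given vector
-/

set_option autoImplicit false

open Finset Pool.Agent.H32.RQ

namespace Pool.Agent.H47.RQ

section

variable {s : ℕ} (i₀ : Fin s)

/-- the monomials that contain `i₀` -/
def mo (j : Fin s) : Mon s := ⟨(min i₀ j, max i₀ j), min_le_max⟩

theorem mo_inj : Function.Injective (mo i₀) := by
  intro j l h
  have h1 : min i₀ j = min i₀ l := congrArg (fun q : Mon s => q.1.1) h
  have h2 : max i₀ j = max i₀ l := congrArg (fun q : Mon s => q.1.2) h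
  rcases le_total i₀ j with hj | hj <;> rcases le_total i₀ l with hl | hl
  · rwa [max_eq_right hj, max_eq_right hl] at h2
  · rw [min_eq_left hj, min_eq_right hl] at h1
    rw [max_eq_right hj, max_eq_left hl] at h2
    rw [h2, h1]
  · rw [min_eq_right hj, min_eq_left hl] at h1
    rw [max_eq_left hj, max_eq_right hl] at h2
    rw [← h2, ← h1]
  · rwa [min_eq_right hj, min_eq_right hl] at h1

variable {R : Type} [CommRing R]

theorem sum_mo (f g : Mon s → R) (hf : ∀ p, p ∉ univ.image (mo i₀) → f p = 0) :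
    ∑ p, f p * g p = ∑ l, f (mo i₀ l) * g (mo i₀ l) := by
  rw [← Finset.sum_subset (Finset.subset_univ (univ.image (mo i₀)))
    (fun p _ hp => by rw [hf p hp, zero_mul]), Finset.sum_image (fun a _ b _ h => mo_inj i₀ h)]

theorem dq_mo (f : Mon s → R) (x : Fin s → R) (hx : x i₀ = 1)
    (hf : ∀ p, p ∉ univ.image (mo i₀) → f p = 0) (j : Fin s) (hj : j ≠ i₀) :
    dq f x j = f (mo i₀ j) := by
  unfold dq
  rw [sum_mo i₀ f _ hf, Finset.sum_eq_single j]
  · have hc : ((if min i₀ j = j then x (max i₀ j) else 0) +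
        (if max i₀ j = j then x (min i₀ j) else 0)) = 1 := by
      rcases lt_or_gt_of_ne hj with h | h
      · rw [min_eq_right h.le, max_eq_left h.le, if_pos rfl, if_neg (Ne.symm hj), hx, add_zero]
      · rw [min_eq_left h.le, max_eq_right h.le, if_pos rfl, if_neg (Ne.symm hj), hx, zero_add]
    exact (congrArg (fun z => f (mo i₀ j) * z) hc).trans (mul_one _)
  · intro l _ hl
    have h1 : min i₀ l ≠ j := by
      rcases min_choice i₀ l with h | h <;> rw [h]
      · exact Ne.symm hj
      · exact hl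
    have h2 : max i₀ l ≠ j := by
      rcases max_choice i₀ l with h | h <;> rw [h]
      · exact Ne.symm hj
      · exact hl
    have hc : ((if min i₀ l = j then x (max i₀ l) else 0) +
        (if max i₀ l = j then x (min i₀ l) else 0)) = 0 := by
      rw [if_neg h1, if_neg h2, add_zero]
    exact (congrArg (fun z => f (mo i₀ l) * z) hc).trans (mul_zero _)
  · intro h
    exact absurd (Finset.mem_univ j) h

theorem qf_mo (f : Mon s → R) (x : Fin s → R) (hx : x i₀ = 1)
    (hf : ∀ p, p ∉ univ.image (mo i₀) → f p = 0) (hf' : ∀ j, j ≠ i₀ → f (mo i₀ j) = 0) :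
    qf f x = f (mo i₀ i₀) := by
  unfold qf
  rw [sum_mo i₀ f _ hf, Finset.sum_eq_single i₀]
  · have hc : x (min i₀ i₀) * x (max i₀ i₀) = 1 := by
      rw [min_self, max_self, hx, mul_one]
    exact (congrArg (fun z => f (mo i₀ i₀) * z) hc).trans (mul_one _)
  · intro l _ hl
    rw [hf' l hl, zero_mul]
  · intro h
    exact absurd (Finset.mem_univ i₀) h

theorem qf_sub (f g : Mon s → R) (x : Fin s → R) :
    qf (fun p => f p - g p) x = qf f x - qf g x := by
  unfold qf
  rw [← Finset.sum_sub_distrib]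
  exact Finset.sum_congr rfl fun p _ => sub_mul _ _ _

theorem dq_sub (f g : Mon s → R) (x : Fin s → R) (j : Fin s) :
    dq (fun p => f p - g p) x j = dq f x j - dq g x j := by
  unfold dq
  rw [← Finset.sum_sub_distrib]
  exact Finset.sum_congr rfl fun p _ => sub_mul _ _ _

/-- a form is determined by its value, its derivatives and its other coefficients -/
theorem eq_of (f g : Mon s → R) (x : Fin s → R) (hx : x i₀ = 1)
    (h : ∀ p, p ∉ univ.image (mo i₀) → f p = g p) (hd : ∀ j, j ≠ i₀ → dq f x j = dq g x j)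
    (hq : qf f x = qf g x) : f = g := by
  have h0 : ∀ p, p ∉ univ.image (mo i₀) → (fun p => f p - g p) p = 0 := fun p hp =>
    sub_eq_zero.2 (h p hp)
  have h1 : ∀ j, j ≠ i₀ → (fun p => f p - g p) (mo i₀ j) = 0 := by
    intro j hj
    refine (dq_mo i₀ _ x hx h0 j hj).symm.trans ?_
    rw [dq_sub, hd j hj, sub_self]
  have h2 : (fun p => f p - g p) (mo i₀ i₀) = 0 := by
    refine (qf_mo i₀ _ x hx h0 h1).symm.trans ?_
    rw [qf_sub, hq, sub_self]
  funext p
  by_cases hp : p ∈ univ.image (mo i₀)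
  · obtain ⟨j, -, rfl⟩ := Finset.mem_image.1 hp
    by_cases hj : j = i₀
    · rw [hj]
      exact sub_eq_zero.1 h2
    · exact sub_eq_zero.1 (h1 j hj)
  · exact h p hp

end

theorem pf_PFX (hFIB : T_FIB) (hPUV : T_PUV) : T_PFX := by
  intro s p t _ i₀ x hs hp hx
  obtain ⟨n, rfl⟩ : ∃ n, s = n + 1 := ⟨s - 1, by omega⟩
  obtain ⟨P, hP⟩ : ∃ P : Finset (Mon (n + 1)), P = univ.image (mo i₀) := ⟨_, rfl⟩
  have hPc : P.card = n + 1 := by
    rw [hP, Finset.card_image_of_injective _ (mo_inj i₀), Finset.card_univ, Fintype.card_fin]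
  have hPle : n + 1 ≤ md (n + 1) := hPc.symm.le.trans (Finset.card_le_univ P)
  obtain ⟨E, hE⟩ : ∃ E : Finset (Fin 2 → Mon (n + 1) → ZMod (p ^ t)),
      E = Finset.univ.filter fun F : Fin 2 → Mon (n + 1) → ZMod (p ^ t) =>
      (∀ i, qf (F i) x = 0) ∧ ∀ j l, jm F x j l = 0 := ⟨_, rfl⟩
  have hmem : ∀ e ∈ E, (∀ i, qf (e i) x = 0) ∧ ∀ j l, jm e x j l = 0 := by
    intro e he
    rw [hE, Finset.mem_filter] at he
    exact he.2
  rw [← hE]
  have hfib := hFIB (ZMod (p ^ t)) (n + 1) (2 * (p ^ t) ^ (n + 1)) univ P E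
    (fun c _ i q => Finset.mem_univ _) ?_
  · rw [hPc, Finset.card_univ, ZMod.card] at hfib
    refine hfib.trans (le_of_eq ?_)
    rw [mul_assoc, ← pow_add]
    congr 2
    omega
  · intro c
    refine (Finset.card_le_card_of_injOn (fun e : Fin 2 → Mon (n + 1) → ZMod (p ^ t) =>
      ((fun k : Fin n => dq (e 0) x (i₀.succAbove k)),
        (fun k : Fin n => dq (e 1) x (i₀.succAbove k)))) ?_ ?_).trans
      (hPUV n p t (by omega) hp)
    · intro e he
      have he' := hmem e (Finset.mem_filter.1 he).1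
      refine Finset.mem_filter.2 ⟨Finset.mem_univ _, fun j l => ?_⟩
      have := he'.2 (i₀.succAbove j) (i₀.succAbove l)
      unfold jm at this
      exact sub_eq_zero.1 this
    · intro e he e' he' hee
      have h1 := Finset.mem_filter.1 he
      have h2 := Finset.mem_filter.1 he'
      have h3 := hmem e h1.1
      have h4 := hmem e' h2.1
      have hd0 : ∀ k, dq (e 0) x (i₀.succAbove k) = dq (e' 0) x (i₀.succAbove k) := fun k =>
        congrFun (congrArg Prod.fst hee) k
      have hd1 : ∀ k, dq (e 1) x (i₀.succAbove k) = dq (e' 1) x (i₀.succAbove k) := fun k =>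
        congrFun (congrArg Prod.snd hee) k
      have hne : ∀ j, j ≠ i₀ → ∃ k, i₀.succAbove k = j := fun j hj =>
        Fin.exists_succAbove_eq hj
      have hall : ∀ i : Fin 2, ∀ j, j ≠ i₀ → dq (e i) x j = dq (e' i) x j := by
        intro i j hj
        obtain ⟨k, rfl⟩ := hne j hj
        fin_cases i
        · exact hd0 k
        · exact hd1 k
      funext i
      refine eq_of i₀ (e i) (e' i) x hx (fun q hq => ?_) (hall i) ((h3.1 i).trans (h4.1 i).symm)
      rw [h1.2 i q (by rw [hP]; exact hq), h2.2 i q (by rw [hP]; exact hq)]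

end Pool.Agent.H47.RQ
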